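import Pool.Agent.H48.PM.Close

set_option autoImplicit false

namespace Pool.Agent.H80.PM

open Finset Polynomial Pool.Agent.H48.PM

theorem ev1 : ev 1 = -(1 / 2) := by
  have h := ev_rec 1 (by norm_num)
  simp only [Finset.sum_range_succ, Finset.sum_range_zero, ev_zero] at h
  norm_num at h
  linarith

theorem ev2 : ev 2 = 0 := by
  have h := ev_rec 2 (by norm_num)
  simp only [Finset.sum_range_succ, Finset.sum_range_zero, ev_zero, ev1] at h
  norm_num [Nat.choose] at h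
  linarith

theorem ev3 : ev 3 = 1 / 4 := by
  have h := ev_rec 3 (by norm_num)
  simp only [Finset.sum_range_succ, Finset.sum_range_zero, ev_zero, ev1, ev2] at h
  norm_num [Nat.choose] at h
  linarith

theorem ev4 : ev 4 = 0 := by
  have h := ev_rec 4 (by norm_num)
  simp only [Finset.sum_range_succ, Finset.sum_range_zero, ev_zero, ev1, ev2, ev3] at h
  norm_num [Nat.choose] at h
  linarith

theorem ev5 : ev 5 = -(1 / 2) := by
  have h := ev_rec 5 (by norm_num)
  simp only [Finset.sum_range_succ, Finset.sum_range_zero, ev_zero, ev1, ev2, ev3, ev4] at h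
  norm_num [Nat.choose] at h
  linarith

theorem ev6 : ev 6 = 0 := by
  have h := ev_rec 6 (by norm_num)
  simp only [Finset.sum_range_succ, Finset.sum_range_zero, ev_zero, ev1, ev2, ev3, ev4, ev5] at h
  norm_num [Nat.choose] at h
  linarith

theorem ev7 : ev 7 = 17 / 8 := by
  have h := ev_rec 7 (by norm_num)
  simp only [Finset.sum_range_succ, Finset.sum_range_zero, ev_zero, ev1, ev2, ev3, ev4, ev5,
    ev6] at h
  norm_num [Nat.choose] at h
  linarith

def Q3 : List ℕ := [2, 2, 1]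

def Q7 : List ℕ := [38, 37, 22, 38, 21, 41, 21]

theorem cntQ3 : (List.range 4).map (cnt 2 Q3 3) = [0, 2, 3, 1] := by
  decide +kernel

theorem cntQ7 : (List.range 8).map (cnt 6 Q7 63) = [0, 64, 420, 740, 510, 156, 21, 1] := by
  decide +kernel

theorem RfQ3 (x : ℚ) : Rf (Q3.map bitc) (range 2) x = x ^ 3 + x := by
  have h := Rf_cnt 2 Q3 3 x 4 (by decide)
  rw [show mset 2 3 = range 2 from mset_full 2] at h
  have hc := cntQ3
  simp only [List.range, List.range.loop, List.map_cons, List.map_nil, List.cons.injEq] at hc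
  obtain ⟨h0, h1, h2, h3, -⟩ := hc
  rw [h]
  simp only [Finset.sum_range_succ, Finset.sum_range_zero, h0, h1, h2, h3, ff]
  push_cast
  ring

theorem RfQ7 (x : ℚ) : Rf (Q7.map bitc) (range 6) x
    = x ^ 7 + 16 * x ^ 5 + 39 * x ^ 3 + 8 * x := by
  have h := Rf_cnt 6 Q7 63 x 8 (by decide)
  rw [show mset 6 63 = range 6 from mset_full 6] at h
  have hc := cntQ7
  simp only [List.range, List.range.loop, List.map_cons, List.map_nil, List.cons.injEq] at hc
  obtain ⟨h0, h1, h2, h3, h4, h5, h6, h7, -⟩ := hc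
  rw [h]
  simp only [Finset.sum_range_succ, Finset.sum_range_zero, h0, h1, h2, h3, h4, h5, h6, h7, ff]
  push_cast
  ring

theorem q_board1 : ∃ cs : List (ℕ → ℚ), cs.length = 1 ∧
    (∀ c ∈ cs, ∀ i, c i = 0 ∨ c i = 1) ∧
    (∀ x, Rf cs (range (1 - 1)) (-x) = -Rf cs (range (1 - 1)) x) ∧
    (EE (Rp cs (range (1 - 1))) = 1 / 2 ^ 1 ∨ EE (Rp cs (range (1 - 1))) = -(1 / 2 ^ 1)) := by
  refine ⟨[fun _ => 0], rfl, ?_, ?_, ?_⟩
  · intro c hc i
    left
    rw [List.mem_singleton.mp hc]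
  · intro x
    simp [Rf]
  · right
    have h : Rp [fun _ : ℕ => (0 : ℚ)] (range (1 - 1)) = X ^ 1 := by
      apply Polynomial.funext
      intro x
      rw [eval_Rp]
      simp [Rf]
    rw [h, EE_pow, ev1]
    norm_num

theorem q_board3 : ∃ cs : List (ℕ → ℚ), cs.length = 3 ∧
    (∀ c ∈ cs, ∀ i, c i = 0 ∨ c i = 1) ∧
    (∀ x, Rf cs (range (3 - 1)) (-x) = -Rf cs (range (3 - 1)) x) ∧
    (EE (Rp cs (range (3 - 1))) = 1 / 2 ^ 2 ∨ EE (Rp cs (range (3 - 1))) = -(1 / 2 ^ 2)) := by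
  refine ⟨Q3.map bitc, rfl, bitc_01 Q3, ?_, ?_⟩
  · intro x
    rw [show (3 - 1 : ℕ) = 2 from rfl, RfQ3, RfQ3]
    ring
  · right
    have h : Rp (Q3.map bitc) (range (3 - 1)) = X ^ 3 + X ^ 1 := by
      apply Polynomial.funext
      intro x
      rw [eval_Rp, show (3 - 1 : ℕ) = 2 from rfl, RfQ3]
      simp
    rw [h, map_add, EE_pow, EE_pow, ev1, ev3]
    norm_num

theorem q_board7 : ∃ cs : List (ℕ → ℚ), cs.length = 7 ∧
    (∀ c ∈ cs, ∀ i, c i = 0 ∨ c i = 1) ∧
    (∀ x, Rf cs (range (7 - 1)) (-x) = -Rf cs (range (7 - 1)) x) ∧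
    (EE (Rp cs (range (7 - 1))) = 1 / 2 ^ 3 ∨ EE (Rp cs (range (7 - 1))) = -(1 / 2 ^ 3)) := by
  refine ⟨Q7.map bitc, rfl, bitc_01 Q7, ?_, ?_⟩
  · intro x
    rw [show (7 - 1 : ℕ) = 6 from rfl, RfQ7, RfQ7]
    ring
  · right
    have h : Rp (Q7.map bitc) (range (7 - 1))
        = X ^ 7 + (16 : ℚ) • X ^ 5 + (39 : ℚ) • X ^ 3 + (8 : ℚ) • X ^ 1 := by
      apply Polynomial.funext
      intro x
      rw [eval_Rp, show (7 - 1 : ℕ) = 6 from rfl, RfQ7]
      simp
    rw [h, map_add, map_add, map_add, map_smul, map_smul, map_smul, EE_pow, EE_pow, EE_pow,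
      EE_pow, ev1, ev3, ev5, ev7]
    simp only [smul_eq_mul]
    norm_num

end Pool.Agent.H80.PM
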